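import Pool.Agent.WAP.StmtsC

/-!
# WAP, row CNO: points without torsion are dense (complex place)
-/

set_option autoImplicit false

namespace Pool.Agent.WAP.H88

open Classical Pool.Agent.WAP Pool.Agent.WAP.C

theorem countable_gi : Countable GaussianInt := by
  have h : Function.Injective (fun a : GaussianInt => (a.re, a.im)) := by
    intro a b hab
    simp only [Prod.mk.injEq] at hab
    exact Zsqrtd.ext hab.1 hab.2
  exact h.countable

/-- CNO -/
theorem cno (ctb : CtbStmt) (cxf : CxfStmt) : CnoStmt := by
  intro F _ _ hF x0 ε hε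
  obtain ⟨_, _, h3, _, _⟩ := cxf F hF
  have := countable_gi
  have hS : ((⋃ a ∈ {a : GaussianInt | a ≠ 0}, cX '' {P : Pt (1 : F) | sm a P = 0}) ∪
      ({0, 1, -1} : Set F)).Countable := by
    apply Set.Countable.union
    · apply Set.Countable.biUnion (Set.to_countable _)
      intro a ha
      exact ((ctb F hF a ha).image _).countable
    · exact (Set.toFinite _).countable
  obtain ⟨τ, hτ, hn⟩ := h3 _ x0 ε hS hε
  rw [Set.mem_union, not_or] at hτ
  obtain ⟨h4, h5⟩ := hτ
  simp only [Set.mem_insert_iff, Set.mem_singleton_iff, not_or] at h5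
  obtain ⟨h6, h7, h8⟩ := h5
  refine ⟨τ, hn, ?_, ?_⟩
  · intro h
    have h9 : τ * ((τ - 1) * (τ + 1)) = 0 := by
      have : cub τ = τ ^ 3 - τ := rfl
      rw [this] at h
      linear_combination h
    rcases mul_eq_zero.mp h9 with h10 | h10
    · exact h6 h10
    · rcases mul_eq_zero.mp h10 with h11 | h11
      · exact h7 (by linear_combination h11)
      · exact h8 (by linear_combination h11)
  · intro P hP hX a ha hs
    apply h4
    rw [Set.mem_iUnion₂]
    exact ⟨a, ha, P, hs, hX⟩

end Pool.Agent.WAP.H88
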